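import Pool.Agent.H74R2.TF.Var

set_option autoImplicit false

universe u

/-!
# A torsion-free metanilpotent variety of groups without a finite basis

There is a torsion-free variety of groups, contained in the product of the varieties of nilpotent
groups of class at most three and at most two, which is not finitely based.
-/

namespace Pool.Agent.Results.MP_8149cf_al.TorsionFreeMetanilpotent

/-- `G` lies in the variety defined by the set `W` of words: every `w` in `W` is a law of `G`. -/
def InVariety (W : Set (FreeGroup ℕ)) (G : Type u) [Group G] : Prop :=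
  ∀ w ∈ W, ∀ f : FreeGroup ℕ →* G, f w = 1

/-- The verbal subgroup of `G` given by `W`: the normal closure of all values of words of `W`. -/
def verbalSubgroup (W : Set (FreeGroup ℕ)) (G : Type u) [Group G] : Subgroup G :=
  Subgroup.normalClosure {g | ∃ w ∈ W, ∃ f : FreeGroup ℕ →* G, f w = g}

instance verbalSubgroup_normal (W : Set (FreeGroup ℕ)) (G : Type u) [Group G] :
    (verbalSubgroup W G).Normal :=
  Subgroup.normalClosure_normal

/-- The variety defined by `W` is torsion-free: all its relatively free groups
`FreeGroup X ⧸ W(FreeGroup X)` are torsion-free. -/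
def IsTorsionFreeVariety (W : Set (FreeGroup ℕ)) : Prop :=
  ∀ (X : Type u) (g : FreeGroup X ⧸ verbalSubgroup W (FreeGroup X)) (m : ℕ),
    m ≠ 0 → g ^ m = 1 → g = 1

/-- `G` lies in the product variety `𝔑_c 𝔑_d`: it has a normal subgroup which is nilpotent of
class at most `c` and whose quotient is nilpotent of class at most `d`. -/
def InNilByNil (c d : ℕ) (G : Type u) [Group G] : Prop :=
  ∃ (N : Subgroup G) (_ : N.Normal),
    (Group.IsNilpotent N ∧ Group.nilpotencyClass N ≤ c) ∧
    (Group.IsNilpotent (G ⧸ N) ∧ Group.nilpotencyClass (G ⧸ N) ≤ d)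

/-- The variety defined by `W` is finitely based: it is defined by some finite set of words. -/
def IsFinitelyBased (W : Set (FreeGroup ℕ)) : Prop :=
  ∃ S : Set (FreeGroup ℕ), S.Finite ∧
    ∀ (G : Type) [Group G], InVariety W G ↔ InVariety S G

/-- A torsion-free subvariety of `𝔑₃ 𝔑₂` that is not finitely based. -/
theorem result :
    ∃ W : Set (FreeGroup ℕ),
      IsTorsionFreeVariety.{u} W ∧
      (∀ (G : Type u) [Group G], InVariety W G → InNilByNil 3 2 G) ∧
      ¬ IsFinitelyBased W := by
  refine ⟨(H74R2.TF.WW0 : Set (FreeGroup ℕ)), ?_, ?_, ?_⟩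
  · intro X g m hm h
    exact H74R2.TF.tf_all X g m hm h
  · intro G _ hG
    have h1 : ((⊤ : Subgroup G).lowerCentralSeries 2).lowerCentralSeries 3 = ⊥ :=
      H74R2.TF.sat_LL G hG
    refine ⟨(⊤ : Subgroup G).lowerCentralSeries 2, inferInstance, ?_, ?_⟩
    · have h2 : (⊤ : Subgroup ((⊤ : Subgroup G).lowerCentralSeries 2)).lowerCentralSeries 3 = ⊥ := by
        rw [← Subgroup.map_subtype_inj, Subgroup.top_subtype_lowerCentralSeries, h1,
          Subgroup.map_bot]
      have h3 := Subgroup.nilpotent_iff_lowerCentralSeries.mpr ⟨3, h2⟩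
      exact ⟨h3, Subgroup.lowerCentralSeries_eq_bot_iff_nilpotencyClass_le.mp h2⟩
    · have h2 : (⊤ : Subgroup (G ⧸ (⊤ : Subgroup G).lowerCentralSeries 2)).lowerCentralSeries 2
          = ⊥ := by
        rw [← Subgroup.map_top_of_surjective
          (QuotientGroup.mk' ((⊤ : Subgroup G).lowerCentralSeries 2))
          (QuotientGroup.mk'_surjective _), ← Subgroup.map_lowerCentralSeries,
          Subgroup.map_eq_bot_iff, QuotientGroup.ker_mk']
      have h3 := Subgroup.nilpotent_iff_lowerCentralSeries.mpr ⟨2, h2⟩
      exact ⟨h3, Subgroup.lowerCentralSeries_eq_bot_iff_nilpotencyClass_le.mp h2⟩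
  · rintro ⟨S, hS, h⟩
    exact H74R2.TF.no_basis ⟨hS.toFinset, fun G _ => by
      rw [Set.Finite.coe_toFinset]
      exact h G⟩

end Pool.Agent.Results.MP_8149cf_al.TorsionFreeMetanilpotent
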